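import Mathlib
import Pool.Agent.Y884.XT.LK
import Pool.Agent.Y682.XF.Def
import Pool.Agent.Y695.Lfun2

/-!
# Points of the twists of the curve `y² = x³ - 11 x² - x` of conductor `20` over finite fields
-/

set_option autoImplicit false

namespace Pool.Agent.U621.TWX

open Pool.Agent.Y682.XF (base pts a factor)
open Pool.Agent.Y695 (ED)
open Pool.Agent.W97.MT (ap affCount)
open Pool.Agent.H82R3.EK (luc luc_eq card_points)

theorem equation_iff (D : ℤ) (R : Type) [CommRing R] (x y : R) :
    (base (ED D) R).toAffine.Equation x y ↔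
      y ^ 2 = x ^ 3 + ((-11 * D : ℤ) : R) * x ^ 2 + ((-D ^ 2 : ℤ) : R) * x + ((0 : ℤ) : R) := by
  rw [WeierstrassCurve.Affine.equation_iff]
  unfold ED
  simp only [WeierstrassCurve.map, eq_intCast]
  push_cast
  constructor
  · intro h
    linear_combination h
  · intro h
    linear_combination h

theorem pts_eq (D : ℤ) (k : Type) [Field k] : pts (ED D) k =
    Nat.card {x : k × k // x.2 ^ 2 = x.1 ^ 3 + ((-11 * D : ℤ) : k) * x.1 ^ 2 +
      ((-D ^ 2 : ℤ) : k) * x.1 + ((0 : ℤ) : k)} := by
  unfold pts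
  exact Nat.card_congr (Equiv.subtypeEquivRight fun x => equation_iff D k x.1 x.2)

theorem affCount_eq (D : ℤ) (l : ℕ) : affCount (ED D) l = pts (ED D) (ZMod l) := rfl

/-- characteristic `2` -/
theorem pts2 (D : ℤ) (k : Type) [Field k] [Fintype k] [CharP k 2] :
    (Fintype.card k : ℤ) - pts (ED D) k = 0 := by
  classical
  have hr : ringChar k = 2 := ringChar.eq k 2
  rw [pts_eq]
  have e : Nat.card {x : k × k // x.2 ^ 2 = x.1 ^ 3 + ((-11 * D : ℤ) : k) * x.1 ^ 2 +
      ((-D ^ 2 : ℤ) : k) * x.1 + ((0 : ℤ) : k)} = Nat.card k := by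
    refine Nat.card_congr (Equiv.ofBijective (fun x => x.1.1) ⟨?_, ?_⟩)
    · rintro ⟨⟨x, y⟩, h⟩ ⟨⟨x', y'⟩, h'⟩ hx
      simp only at hx h h'
      subst hx
      have h1 : (y - y') ^ 2 = 0 := by
        have h2 : (2 : k) = 0 := CharTwo.two_eq_zero
        linear_combination h - h' + (y' ^ 2 - y * y') * h2
      have h2 : y = y' := sub_eq_zero.1 (pow_eq_zero_iff two_ne_zero |>.1 h1)
      subst h2
      rfl
    · intro x
      obtain ⟨y, hy⟩ := FiniteField.isSquare_of_char_two hr (x ^ 3 + ((-11 * D : ℤ) : k) * x ^ 2 +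
        ((-D ^ 2 : ℤ) : k) * x + ((0 : ℤ) : k))
      exact ⟨⟨(x, y), by simp only; rw [hy, pow_two]⟩, rfl⟩
  rw [e, Nat.card_eq_fintype_card, sub_self]

/-- the cuspidal cubic -/
theorem cusp (k : Type) [Field k] [Fintype k] :
    Nat.card {x : k × k // x.2 ^ 2 = x.1 ^ 3} = Fintype.card k := by
  classical
  rw [← Nat.card_eq_fintype_card]
  symm
  refine Nat.card_congr (Equiv.ofBijective (fun t => ⟨(t ^ 2, t ^ 3), by ring⟩) ⟨?_, ?_⟩)
  · intro t s h
    have h1 := congrArg Subtype.val h
    obtain ⟨h2, h3⟩ := Prod.mk.inj h1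
    by_cases ht : t = 0
    · subst ht
      have h4 : s ^ 2 = 0 := by rw [← h2]; ring
      exact (pow_eq_zero_iff two_ne_zero |>.1 h4).symm
    · have h4 : t ^ 2 * t = t ^ 2 * s := by
        linear_combination h3 - s * h2
      exact mul_left_cancel₀ (pow_ne_zero 2 ht) h4
  · rintro ⟨⟨x, y⟩, h⟩
    simp only at h
    by_cases hx : x = 0
    · refine ⟨0, ?_⟩
      have hy : y = 0 := by
        rw [hx] at h
        have : y ^ 2 = 0 := by linear_combination h
        exact pow_eq_zero_iff (two_ne_zero) |>.1 this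
      apply Subtype.ext
      simp [hx, hy]
    · refine ⟨y / x, ?_⟩
      have h2 : (y / x) ^ 2 = x := by
        field_simp
        exact h
      apply Subtype.ext
      apply Prod.ext
      · exact h2
      · show (y / x) ^ 3 = y
        rw [pow_succ, h2]
        field_simp

/-- the divisors of `D` -/
theorem ptsD (D : ℤ) (k : Type) [Field k] [Fintype k] (hD : (D : k) = 0) :
    (Fintype.card k : ℤ) - pts (ED D) k = 0 := by
  rw [pts_eq, ← cusp k]
  have e : ∀ x : k × k, x.2 ^ 2 = x.1 ^ 3 + ((-11 * D : ℤ) : k) * x.1 ^ 2 +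
      ((-D ^ 2 : ℤ) : k) * x.1 + ((0 : ℤ) : k) ↔ x.2 ^ 2 = x.1 ^ 3 := by
    intro x
    push_cast
    rw [hD]
    constructor
    · intro h
      linear_combination h
    · intro h
      linear_combination h
  rw [Nat.card_congr (Equiv.subtypeEquivRight e), sub_self]

/-- the nodal cubic -/
theorem node (k : Type) [Field k] [Fintype k] (d : k) :
    (Fintype.card k : ℤ) - Nat.card {x : k × k // x.2 ^ 2 = x.1 * (x.1 - d) ^ 2} =
      Nat.card {t : k // t ^ 2 = d} - 1 := by
  classical
  have e : {x : k × k // x.2 ^ 2 = x.1 * (x.1 - d) ^ 2} ≃ Option {t : k // ¬ t ^ 2 = d} :=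
    { toFun := fun x => if h : x.1.1 - d = 0 then none else some ⟨x.1.2 / (x.1.1 - d), by
        have h1 := x.2
        have h2 : (x.1.2 / (x.1.1 - d)) ^ 2 = x.1.1 := by
          field_simp
          linear_combination h1
        rw [h2]
        intro h3
        exact h (sub_eq_zero.2 h3)⟩
      invFun := fun o => match o with
        | none => ⟨(d, 0), by simp⟩
        | some t => ⟨(t.1 ^ 2, t.1 * (t.1 ^ 2 - d)), by
            simp only
            ring⟩
      left_inv := by
        rintro ⟨⟨x, y⟩, h⟩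
        simp only at h
        by_cases hx : x - d = 0
        · have hy : y = 0 := by
            rw [hx] at h
            have : y ^ 2 = 0 := by linear_combination h
            exact pow_eq_zero_iff (two_ne_zero) |>.1 this
          have hx' : x = d := sub_eq_zero.1 hx
          simp [hy, hx']
        · have h2 : (y / (x - d)) ^ 2 = x := by
            field_simp
            linear_combination h
          simp only [hx, dite_false]
          apply Subtype.ext
          apply Prod.ext
          · exact h2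
          · show y / (x - d) * ((y / (x - d)) ^ 2 - d) = y
            rw [h2]
            field_simp
      right_inv := by
        rintro (_ | ⟨t, ht⟩)
        · simp
        · have ht' : t ^ 2 - d ≠ 0 := fun h => ht (sub_eq_zero.1 h)
          have h3 : t * (t ^ 2 - d) / (t ^ 2 - d) = t := mul_div_cancel_right₀ t ht'
          simp only [ht', dite_false]
          exact congrArg some (Subtype.ext h3) }
  have e1 : Nat.card {x : k × k // x.2 ^ 2 = x.1 * (x.1 - d) ^ 2} =
      Nat.card {t : k // ¬ t ^ 2 = d} + 1 := by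
    rw [Nat.card_congr e, Nat.card_eq_fintype_card, Nat.card_eq_fintype_card, Fintype.card_option]
  have e2 : Fintype.card k = Nat.card {t : k // t ^ 2 = d} +
      Nat.card {t : k // ¬ t ^ 2 = d} := by
    rw [Nat.card_eq_fintype_card, Nat.card_eq_fintype_card]
    have := Fintype.card_subtype_compl (fun t : k => t ^ 2 = d)
    have h2 := Fintype.card_subtype_le (fun t : k => t ^ 2 = d)
    omega
  rw [e1]
  have e3 : (Fintype.card k : ℤ) = (Nat.card {t : k // t ^ 2 = d} : ℤ) +
      Nat.card {t : k // ¬ t ^ 2 = d} := by exact_mod_cast e2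
  push_cast
  rw [e3]
  ring

/-- characteristic `5` -/
theorem pts5 (D : ℤ) (hD : ¬ (5 : ℤ) ∣ D) (k : Type) [Field k] [Fintype k] [CharP k 5] (f : ℕ)
    (hf : Fintype.card k = 5 ^ f) :
    (Fintype.card k : ℤ) - pts (ED D) k = (if D % 5 = 1 ∨ D % 5 = 4 then -1 else 1) ^ f := by
  classical
  have h5 : (5 : k) = 0 := by
    have := CharP.cast_eq_zero k 5
    exact_mod_cast this
  have hr : ringChar k = 5 := ringChar.eq k 5
  have hr2 : ringChar k ≠ 2 := by rw [hr]; norm_num
  have e : ∀ x : k × k, x.2 ^ 2 = x.1 ^ 3 + ((-11 * D : ℤ) : k) * x.1 ^ 2 +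
      ((-D ^ 2 : ℤ) : k) * x.1 + ((0 : ℤ) : k) ↔ x.2 ^ 2 = x.1 * (x.1 - 3 * (D : k)) ^ 2 := by
    intro x
    push_cast
    constructor
    · intro h
      linear_combination h + (-x.1 ^ 2 * (D : k) - 2 * (D : k) ^ 2 * x.1) * h5
    · intro h
      linear_combination h - (-x.1 ^ 2 * (D : k) - 2 * (D : k) ^ 2 * x.1) * h5
  rw [pts_eq, Nat.card_congr (Equiv.subtypeEquivRight e), node]
  have h1 := quadraticChar_card_sqrts hr2 (3 * (D : k))
  have h2 : (Nat.card {t : k // t ^ 2 = 3 * (D : k)} : ℤ) = quadraticChar k (3 * (D : k)) + 1 := by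
    rw [← h1, Nat.card_eq_fintype_card, Set.toFinset_card]
    rfl
  rw [h2, add_sub_cancel_right]
  -- the residue of `D` modulo `5`
  have hmod : (D : k) = ((D % 5 : ℤ) : k) := by
    conv_lhs => rw [← Int.mul_ediv_add_emod D 5]
    push_cast
    rw [h5, zero_mul, zero_add]
  have hres : D % 5 = 1 ∨ D % 5 = 2 ∨ D % 5 = 3 ∨ D % 5 = 4 := by omega
  have hD0 : (D : k) ≠ 0 := by
    intro h
    rw [← Int.cast_zero (R := k), CharP.intCast_eq_intCast k 5, Int.modEq_zero_iff_dvd] at h
    exact hD (by exact_mod_cast h)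
  have h3 : (3 : k) ≠ 0 := by
    intro h
    have : (1 : k) = 0 := by linear_combination 2 * h - h5
    exact one_ne_zero this
  have hne : 3 * (D : k) ≠ 0 := mul_ne_zero h3 hD0
  -- the power
  have hpow := quadraticChar_eq_pow_of_char_ne_two' hr2 (3 * (D : k))
  have hc : ∃ j : ℕ, Fintype.card k / 2 = 4 * j + 2 * f := by
    rw [hf]
    have h6 : ∀ f : ℕ, ∃ j : ℕ, 5 ^ f = 2 * (4 * j + 2 * f) + 1 := by
      intro f
      induction f with
      | zero => exact ⟨0, by norm_num⟩
      | succ n ih =>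
        obtain ⟨j, hj⟩ := ih
        refine ⟨5 * j + 2 * n, ?_⟩
        rw [pow_succ, hj]
        ring
    obtain ⟨j, hj⟩ := h6 f
    refine ⟨j, ?_⟩
    omega
  obtain ⟨j, hj⟩ := hc
  have h4 : (3 * (D : k)) ^ 4 = 1 := by
    rw [hmod]
    rcases hres with h | h | h | h <;> rw [h] <;> push_cast
    · linear_combination 16 * h5
    · linear_combination 259 * h5
    · linear_combination 1312 * h5
    · linear_combination 4147 * h5
  have hsq : (3 * (D : k)) ^ 2 = (((if D % 5 = 1 ∨ D % 5 = 4 then -1 else 1) : ℤ) : k) := by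
    rw [hmod]
    rcases hres with h | h | h | h <;> rw [h]
    · norm_num
      linear_combination 2 * h5
    · norm_num
      linear_combination 7 * h5
    · norm_num
      linear_combination 16 * h5
    · norm_num
      linear_combination 29 * h5
  rw [hj, pow_add, pow_mul, h4, one_pow, one_mul, pow_mul, hsq] at hpow
  have hcast : ((quadraticChar k (3 * (D : k)) : ℤ) : k) =
      (((if D % 5 = 1 ∨ D % 5 = 4 then -1 else 1) ^ f : ℤ) : k) := by
    rw [hpow]
    push_cast
    rfl
  have h20 : (2 : k) ≠ 0 := Ring.two_ne_zero hr2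
  have hl : quadraticChar k (3 * (D : k)) = 1 ∨ quadraticChar k (3 * (D : k)) = -1 :=
    quadraticChar_dichotomy hne
  have hrr : ((if D % 5 = 1 ∨ D % 5 = 4 then -1 else 1 : ℤ)) ^ f = 1 ∨
      ((if D % 5 = 1 ∨ D % 5 = 4 then -1 else 1 : ℤ)) ^ f = -1 := by
    split_ifs
    · exact neg_one_pow_eq_or ℤ f
    · left; exact one_pow f
  rcases hl with h | h <;> rcases hrr with h' | h' <;> rw [h, h'] at hcast ⊢
  · exfalso
    apply h20
    push_cast at hcast
    linear_combination hcast
  · exfalso
    apply h20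
    push_cast at hcast
    linear_combination -hcast

end Pool.Agent.U621.TWX
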