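import Mathlib
import Pool.Agent.U621.TWX.Cnt

/-!
# The Euler product of the twists of the curve `y² = x³ - 11 x² - x` of conductor `20` over a subfield
of a cyclotomic field
-/

set_option autoImplicit false

open NumberField IsDedekindDomain H300.HW Filter
open Pool.Agent.H921R2.TatePole
open W165.CE (pw pw_eq pw_luc finite_bad intCast_mem_iff)
open Pool.Agent.H82R3.EK (luc luc_eq card_points natCast_mem_iff nm_cpow prime_cpow)

namespace Pool.Agent.U621.TWX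

open Pool.Agent.Y682.XF (base pts a factor)
open Pool.Agent.Y695 (ED)
open Pool.Agent.Y702.L (pv local_quad)
open Pool.Agent.W97.MT (ap affCount)
open Pool.Agent.Y884.XT (card_quot charP_quot)

/-- Hasse's bound -/
lemma pts_bound {D : ℤ} {k : Type} [Field k] [Fintype k] (hk : ringChar k ≠ 2) :
    |((Fintype.card k : ℤ) - pts (ED D) k : ℝ)| ≤ 2 * Real.sqrt (Fintype.card k) := by
  classical
  have h2 : (2 : k) ≠ 0 := Ring.two_ne_zero hk
  rw [pts_eq]
  set P : Polynomial k := Polynomial.X ^ 3 + Polynomial.C ((-11 * D : ℤ) : k) * Polynomial.X ^ 2 +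
    Polynomial.C ((-D ^ 2 : ℤ) : k) * Polynomial.X + Polynomial.C ((0 : ℤ) : k) with hP
  have hdeg : P.natDegree = 3 := by
    rw [hP]
    compute_degree!
  have hmon : P.Monic := by
    rw [hP]
    monicity!
  have hns : ∀ (c : k) (h : Polynomial k), P ≠ Polynomial.C c * h ^ 2 := by
    intro c h he
    have h1 := congrArg Polynomial.natDegree he
    rw [hdeg] at h1
    have hc : c ≠ 0 := by
      rintro rfl
      rw [map_zero, zero_mul, Polynomial.natDegree_zero] at h1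
      omega
    rw [Polynomial.natDegree_C_mul hc, Polynomial.natDegree_pow] at h1
    omega
  have h4 := Pool.Agent.H341R2.Sharp.weil_sharp_monic hk hmon (by rw [hdeg]; norm_num) hns
  rw [hdeg] at h4
  have h5 : ∀ x : k, P.eval x = x ^ 3 + ((-11 * D : ℤ) : k) * x ^ 2 + ((-D ^ 2 : ℤ) : k) * x +
      ((0 : ℤ) : k) := by
    intro x
    rw [hP]
    simp only [Polynomial.eval_add, Polynomial.eval_mul, Polynomial.eval_pow, Polynomial.eval_X,
      Polynomial.eval_C]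
  simp_rw [h5] at h4
  have h6 := congrArg (fun z : ℤ => (z : ℝ)) (card_points hk (fun x : k =>
    x ^ 3 + ((-11 * D : ℤ) : k) * x ^ 2 + ((-D ^ 2 : ℤ) : k) * x + ((0 : ℤ) : k)))
  push_cast only [Int.cast_add, Int.cast_sum, Int.cast_natCast] at h6
  rw [h6, Int.cast_natCast, show (Fintype.card k : ℝ) - (Fintype.card k +
    ∑ x : k, (quadraticChar k (x ^ 3 + ((-11 * D : ℤ) : k) * x ^ 2 + ((-D ^ 2 : ℤ) : k) * x +
      ((0 : ℤ) : k)) : ℝ)) =
    - ∑ x : k, (quadraticChar k (x ^ 3 + ((-11 * D : ℤ) : k) * x ^ 2 + ((-D ^ 2 : ℤ) : k) * x +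
      ((0 : ℤ) : k)) : ℝ) by ring, abs_neg]
  refine h4.trans (le_of_eq ?_)
  norm_num

/-- the number `[p ∤ 10 D] p` -/
noncomputable def pp (D : ℤ) (p : ℕ) : ℂ := if (p : ℤ) ∣ 10 * D then 0 else p

lemma dvd10 {D : ℤ} {p : ℕ} (hp : p.Prime) :
    (p : ℤ) ∣ 10 * D ↔ p = 2 ∨ p = 5 ∨ (p : ℤ) ∣ D := by
  have hpZ : Prime (p : ℤ) := Nat.prime_iff_prime_int.1 hp
  rw [hpZ.dvd_mul, show (10 : ℤ) = ((2 * 5 : ℕ) : ℤ) by norm_num, Int.natCast_dvd_natCast, hp.dvd_mul,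
    Nat.prime_dvd_prime_iff_eq hp (by norm_num), Nat.prime_dvd_prime_iff_eq hp (by norm_num), or_assoc]

lemma disc_ED (D : ℤ) : (ED D).Δ = 2000 * D ^ 6 := by
  unfold ED
  simp only [WeierstrassCurve.Δ, WeierstrassCurve.b₂, WeierstrassCurve.b₄, WeierstrassCurve.b₆,
    WeierstrassCurve.b₈]
  ring

lemma dvd_disc {D : ℤ} {p : ℕ} (hp : p.Prime) : (p : ℤ) ∣ (ED D).Δ ↔ (p : ℤ) ∣ 10 * D := by
  have hpZ : Prime (p : ℤ) := Nat.prime_iff_prime_int.1 hp
  rw [disc_ED, dvd10 hp, hpZ.dvd_mul, show (2000 : ℤ) = ((2 ^ 4 * 5 ^ 3 : ℕ) : ℤ) by norm_num,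
    Int.natCast_dvd_natCast, hp.dvd_mul]
  constructor
  · rintro ((h | h) | h)
    · exact Or.inl ((Nat.prime_dvd_prime_iff_eq hp (by norm_num)).1 (hp.dvd_of_dvd_pow h))
    · exact Or.inr (Or.inl ((Nat.prime_dvd_prime_iff_eq hp (by norm_num)).1 (hp.dvd_of_dvd_pow h)))
    · exact Or.inr (Or.inr (hpZ.dvd_of_dvd_pow h))
  · rintro (h | h | h)
    · left; left; rw [h]; norm_num
    · left; right; rw [h]; norm_num
    · exact Or.inr (dvd_pow h (by norm_num))

lemma ap_zero {D : ℤ} {p : ℕ} (hp : p.Prime) (h : p = 2 ∨ (p : ℤ) ∣ D) : ap (ED D) p = 0 := by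
  have hf : Fact p.Prime := ⟨hp⟩
  rcases h with rfl | h
  · have h1 := pts2 D (ZMod 2)
    rw [ZMod.card] at h1
    unfold ap
    rw [affCount_eq]
    exact h1
  · have h1 := ptsD D (ZMod p) ((ZMod.intCast_zmod_eq_zero_iff_dvd _ p).2 h)
    rw [ZMod.card] at h1
    unfold ap
    rw [affCount_eq]
    exact h1

lemma ap_five {D : ℤ} (hD : ¬ (5 : ℤ) ∣ D) :
    ap (ED D) 5 = if D % 5 = 1 ∨ D % 5 = 4 then -1 else 1 := by
  have hf : Fact (Nat.Prime 5) := ⟨by norm_num⟩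
  have h1 := pts5 D hD (ZMod 5) 1 (by rw [ZMod.card, pow_one])
  rw [ZMod.card, pow_one] at h1
  unfold ap
  rw [affCount_eq]
  exact h1

section
variable {K : Type} [Field K] [NumberField K]

lemma a_eq {D : ℤ} (hD5 : ¬ (5 : ℤ) ∣ D) (v : HeightOneSpectrum (𝓞 K)) :
    ((a (ED D) v : ℤ) : ℂ) = pw (ap (ED D) (below v) : ℂ) (pp D (below v)) (deg v) := by
  have hmax : v.asIdeal.IsMaximal := v.isPrime.isMaximal v.ne_bot
  letI : Field (𝓞 K ⧸ v.asIdeal) := Ideal.Quotient.field v.asIdeal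
  have : Finite (𝓞 K ⧸ v.asIdeal) := Ideal.finiteQuotientOfFreeOfNeBot v.asIdeal v.ne_bot
  letI : Fintype (𝓞 K ⧸ v.asIdeal) := Fintype.ofFinite _
  have hch := charP_quot v
  have hfp : Fact (below v : ℕ).Prime := ⟨(below v).2⟩
  obtain ⟨h1, h2, h3⟩ := nm_eq v
  have hcard : Ideal.absNorm v.asIdeal = Fintype.card (𝓞 K ⧸ v.asIdeal) := by
    rw [Ideal.absNorm_apply, Submodule.cardQuot_apply, Nat.card_eq_fintype_card]
  by_cases h5 : (below v : ℕ) = 5
  · have hpp : pp D (below v) = 0 := by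
      unfold pp
      rw [if_pos ((dvd10 (below v).2).2 (Or.inr (Or.inl h5)))]
    set ε : ℤ := if D % 5 = 1 ∨ D % 5 = 4 then -1 else 1 with hε
    rw [hpp, h5, ap_five hD5, ← hε, pw_eq (α := (ε : ℂ)) (β := 0) (by simp) (by simp),
      zero_pow h2.ne', add_zero]
    have hch' : CharP (𝓞 K ⧸ v.asIdeal) 5 := h5 ▸ hch
    have := pts5 D hD5 (𝓞 K ⧸ v.asIdeal) (deg v) (by
      rw [← Nat.card_eq_fintype_card, card_quot, h5])
    unfold a
    rw [hcard]
    have h7 : (Fintype.card (𝓞 K ⧸ v.asIdeal) : ℤ) - pts (ED D) (𝓞 K ⧸ v.asIdeal) = ε ^ deg v := this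
    rw [h7]
    push_cast
    rfl
  by_cases hz : (below v : ℕ) = 2 ∨ ((below v : ℕ) : ℤ) ∣ D
  · have hpp : pp D (below v) = 0 := by
      unfold pp
      rw [if_pos ((dvd10 (below v).2).2 (hz.elim Or.inl fun h => Or.inr (Or.inr h)))]
    rw [hpp, ap_zero (below v).2 hz, pw_eq (α := 0) (β := 0) (by simp) (by simp),
      zero_pow h2.ne', add_zero]
    have h7 : (Fintype.card (𝓞 K ⧸ v.asIdeal) : ℤ) - pts (ED D) (𝓞 K ⧸ v.asIdeal) = 0 := by
      rcases hz with h | h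
      · have hch' : CharP (𝓞 K ⧸ v.asIdeal) 2 := h ▸ hch
        exact pts2 D _
      · exact ptsD D _ ((CharP.intCast_eq_zero_iff (𝓞 K ⧸ v.asIdeal) (below v : ℕ) D).2 h)
    unfold a
    rw [hcard, h7, Int.cast_zero]
  push Not at hz
  obtain ⟨hp2, hpD⟩ := hz
  have hpp : pp D (below v) = ((below v : ℕ) : ℤ) := by
    unfold pp
    rw [if_neg (fun h => ((dvd10 (below v).2).1 h).elim hp2 fun h => h.elim h5 hpD)]
    push_cast
    rfl
  rw [hpp, pw_luc]
  congr 1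
  letI : Algebra (ZMod (below v : ℕ)) (𝓞 K ⧸ v.asIdeal) := ZMod.algebra _ _
  have hfin : Module.finrank (ZMod (below v : ℕ)) (𝓞 K ⧸ v.asIdeal) = deg v := by
    apply Nat.pow_right_injective (below v).2.two_le
    show (below v : ℕ) ^ _ = (below v : ℕ) ^ _
    rw [FiniteField.pow_finrank_eq_natCard (below v : ℕ), card_quot]
  have e1 := Pool.Agent.Y18.JT.s_cubext (below v : ℕ) hp2 (-11 * D) (-D ^ 2) 0 (by
    intro h
    have h6 : ((below v : ℕ) : ℤ) ∣ 10 * D := by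
      rw [← dvd_disc (below v).2, disc_ED]
      have h8 : ((below v : ℕ) : ℤ) ∣ 2 ^ 4 * ((-11 * D) ^ 2 * (-D ^ 2) ^ 2 - 4 * (-D ^ 2) ^ 3 -
          4 * (-11 * D) ^ 3 * 0 - 27 * 0 ^ 2 + 18 * (-11 * D) * (-D ^ 2) * 0) := h.mul_left _
      convert h8 using 1
      ring
    rcases (dvd10 (below v).2).1 h6 with h7 | h7 | h7
    · exact hp2 h7
    · exact h5 h7
    · exact hpD h7) (𝓞 K ⧸ v.asIdeal)
  rw [hfin, ← pts_eq D (𝓞 K ⧸ v.asIdeal), ← pts_eq D (ZMod (below v : ℕ))] at e1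
  unfold a ap
  rw [hcard, affCount_eq]
  exact e1

lemma disc_mem {D : ℤ} (v : HeightOneSpectrum (𝓞 K)) :
    (((ED D).Δ : ℤ) : 𝓞 K) ∈ v.asIdeal ↔ ((below v : ℕ) : ℤ) ∣ 10 * D := by
  rw [intCast_mem_iff, dvd_disc (below v).2]

/-- the factor in terms of the prime below -/
lemma fE_eq {D : ℤ} (hD5 : ¬ (5 : ℤ) ∣ D) (v : HeightOneSpectrum (𝓞 K)) (s : ℂ) :
    factor (ED D) s v = (1 - pw (ap (ED D) (below v) : ℂ) (pp D (below v)) (deg v) *
        (((below v : ℕ) : ℂ) ^ (-s)) ^ deg v +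
      (pp D (below v)) ^ deg v * (((below v : ℕ) : ℂ) ^ (-s)) ^ (2 * deg v))⁻¹ := by
  have hdeg : deg v ≠ 0 := (nm_eq v).2.1.ne'
  unfold factor
  rw [a_eq hD5, nm_cpow]
  by_cases h14 : ((below v : ℕ) : ℤ) ∣ 10 * D
  · have hpp : pp D (below v) = 0 := by
      unfold pp
      rw [if_pos h14]
    rw [if_pos ((disc_mem v).2 h14), hpp, zero_pow hdeg, zero_mul]
  · have hpp : pp D (below v) = ((below v : ℕ) : ℂ) := by
      unfold pp
      rw [if_neg h14]
    have hpc : ((Ideal.absNorm v.asIdeal : ℕ) : ℂ) ^ (1 - 2 * s) =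
        (((below v : ℕ) : ℂ)) ^ deg v * (((below v : ℕ) : ℂ) ^ (-s)) ^ (2 * deg v) := by
      rw [nm_cpow, prime_cpow _ (below v).2.ne_zero, mul_pow, ← pow_mul]
    rw [if_neg (fun h => h14 ((disc_mem v).1 h)), hpp, hpc]

/-- Hasse's bound -/
lemma a_bound {D : ℤ} (v : HeightOneSpectrum (𝓞 K)) (hv : (below v : ℕ) ≠ 2) :
    |((a (ED D) v : ℤ) : ℝ)| ≤ 2 * Real.sqrt (nm v) := by
  have hmax : v.asIdeal.IsMaximal := v.isPrime.isMaximal v.ne_bot
  letI : Field (𝓞 K ⧸ v.asIdeal) := Ideal.Quotient.field v.asIdeal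
  have : Finite (𝓞 K ⧸ v.asIdeal) := Ideal.finiteQuotientOfFreeOfNeBot v.asIdeal v.ne_bot
  letI : Fintype (𝓞 K ⧸ v.asIdeal) := Fintype.ofFinite _
  have hch := charP_quot v
  have hE : ringChar (𝓞 K ⧸ v.asIdeal) ≠ 2 := by
    rw [ringChar.eq (𝓞 K ⧸ v.asIdeal) (below v : ℕ)]; exact hv
  have hcard : Ideal.absNorm v.asIdeal = Fintype.card (𝓞 K ⧸ v.asIdeal) := by
    rw [Ideal.absNorm_apply, Submodule.cardQuot_apply, Nat.card_eq_fintype_card]
  have h4 := pts_bound (D := D) (k := 𝓞 K ⧸ v.asIdeal) hE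
  unfold a nm
  rw [hcard]
  push_cast at h4 ⊢
  exact h4

open Classical in
/-- the part of the factor different from one -/
lemma fE_sub_bound {D : ℤ} (v : HeightOneSpectrum (𝓞 K)) (hv : (below v : ℕ) ≠ 2) (s : ℂ)
    (hs : 3 / 2 < s.re) (hsmall : (nm v : ℝ) ^ (-(s.re - 1 / 2)) ≤ 1 / 6) :
    ‖factor (ED D) s v - 1‖ ≤ 6 * (nm v : ℝ) ^ (-(s.re - 1 / 2)) := by
  have hn0 : (0 : ℝ) < nm v := by
    have := two_le_nm v
    exact_mod_cast (by omega : 0 < nm v)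
  have hn1 : (1 : ℝ) ≤ nm v := by
    have := two_le_nm v
    exact_mod_cast (by omega : 1 ≤ nm v)
  have hb := a_bound (D := D) v hv
  unfold factor
  set t : ℤ := a (ED D) v with ht
  set w : ℝ := (nm v : ℝ) ^ (-(s.re - 1 / 2)) with hw
  have e1 : ‖((Ideal.absNorm v.asIdeal : ℕ) : ℂ) ^ (-s)‖ = (nm v : ℝ) ^ (-s.re) := by
    have := Complex.norm_natCast_cpow_of_pos (n := nm v) (by exact_mod_cast hn0) (-s)
    rw [Complex.neg_re] at this
    exact this
  have e2 : ‖((Ideal.absNorm v.asIdeal : ℕ) : ℂ) ^ (1 - 2 * s)‖ = (nm v : ℝ) ^ (1 - 2 * s.re) := by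
    have := Complex.norm_natCast_cpow_of_pos (n := nm v) (by exact_mod_cast hn0) (1 - 2 * s)
    have h2 : (1 - 2 * s).re = 1 - 2 * s.re := by simp
    rw [h2] at this
    exact this
  set B : ℂ := (if (((ED D).Δ : ℤ) : 𝓞 K) ∈ v.asIdeal then 0 else
    ((Ideal.absNorm v.asIdeal : ℕ) : ℂ) ^ (1 - 2 * s)) with hB
  set u : ℂ := -((t : ℂ) * ((Ideal.absNorm v.asIdeal : ℕ) : ℂ) ^ (-s)) + B with hu
  have hu1 : ‖u‖ ≤ 3 * w := by
    have h1 : ‖(t : ℂ) * ((Ideal.absNorm v.asIdeal : ℕ) : ℂ) ^ (-s)‖ ≤ 2 * w := by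
      rw [norm_mul, e1, Complex.norm_intCast]
      calc |(t : ℝ)| * (nm v : ℝ) ^ (-s.re) ≤ (2 * Real.sqrt (nm v)) * (nm v : ℝ) ^ (-s.re) :=
            mul_le_mul_of_nonneg_right hb (by positivity)
        _ = 2 * w := by
            rw [hw, Real.sqrt_eq_rpow, mul_assoc, ← Real.rpow_add hn0]
            congr 2
            ring
    have h2 : ‖B‖ ≤ w := by
      rw [hB]
      split_ifs
      · rw [norm_zero, hw]
        positivity
      · rw [e2, hw]
        apply Real.rpow_le_rpow_of_exponent_le hn1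
        linarith
    calc ‖u‖ ≤ ‖-((t : ℂ) * ((Ideal.absNorm v.asIdeal : ℕ) : ℂ) ^ (-s))‖ + _ := norm_add_le _ _
      _ ≤ 2 * w + w := add_le_add (by rwa [norm_neg]) h2
      _ = 3 * w := by ring
  have e3 : (1 - (t : ℂ) * ((Ideal.absNorm v.asIdeal : ℕ) : ℂ) ^ (-s) + B) = 1 + u := by
    rw [hu]; ring
  rw [e3]
  have hu2 : ‖u‖ ≤ 1 / 2 := by linarith
  have h3 : 1 / 2 ≤ ‖1 + u‖ := by
    have := norm_sub_norm_le (1 : ℂ) (-u)
    rw [sub_neg_eq_add, norm_neg, norm_one] at this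
    linarith
  have hne : 1 + u ≠ 0 := by
    intro h
    rw [h, norm_zero] at h3
    linarith
  have e4 : (1 + u)⁻¹ - 1 = -u / (1 + u) := by field_simp; ring
  rw [e4, norm_div, norm_neg, div_le_iff₀ (by linarith)]
  nlinarith [norm_nonneg u]

lemma multipliable_fE (D : ℤ) (s : ℂ) (hs : 3 / 2 < s.re) :
    Multipliable (factor (K := K) (ED D) s) := by
  have hsum := nm_summable (K := K) (x := s.re - 1 / 2) (by linarith)
  have h1 : Summable (fun v : HeightOneSpectrum (𝓞 K) => ‖factor (ED D) s v - 1‖) := by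
    refine Summable.of_norm_bounded_eventually (hsum.mul_left 6) ?_
    have h2 := hsum.tendsto_cofinite_zero.eventually (Iio_mem_nhds (by norm_num : (0 : ℝ) < 1 / 6))
    have h3 : ∀ᶠ v : HeightOneSpectrum (𝓞 K) in cofinite, ¬ ((below v : ℕ) : ℤ) ∣ 2 := by
      rw [Filter.eventually_cofinite]
      simp only [not_not]
      exact finite_bad _ (by norm_num)
    filter_upwards [h2, h3] with v hv hv3
    rw [norm_norm]
    exact fE_sub_bound v (fun h => hv3 (by rw [h]; norm_num)) s hs (le_of_lt hv)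
  have h2 := multipliable_one_add_of_summable h1
  refine h2.congr (fun v => ?_)
  ring

end

section prod
variable (n : ℕ) [NeZero n] (L : Type) [Field L] [NumberField L] [IsCyclotomicExtension {n} ℚ L]
  (F : IntermediateField ℚ L)

/-- the Euler factor of the twist by the primitive character -/
noncomputable def eul (D : ℤ) (χ : DirichletCharacter ℂ n) (s : ℂ) (p : ℕ) : ℂ :=
  (1 - (ap (ED D) p : ℂ) * pv n χ p * (p : ℂ) ^ (-s) +
    pp D p * pv n χ p ^ 2 * (p : ℂ) ^ (-2 * s))⁻¹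

open Classical in
/-- the Euler product over the subfield `F` of the cyclotomic field -/
theorem hasProd_K {D : ℤ} (hD5 : ¬ (5 : ℤ) ∣ D) (G : DirichletCharacter ℂ n → ℂ → ℂ) (s : ℂ)
    (hs : 3 / 2 < s.re)
    (hG : ∀ χ ∈ YY n L F, HasProd (fun p : Nat.Primes => eul n D χ s p) (G χ s)) :
    HasProd (factor (K := F) (ED D) s) (∏ χ : YY n L F, G χ s) := by
  have h1 : HasProd (fun p : Nat.Primes => ∏ χ : YY n L F, eul n D χ s p)
      (∏ χ : YY n L F, G χ s) := by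
    apply hasProd_prod
    intro χ _
    exact hG χ.1 χ.2
  have h2 : ∀ p : Nat.Primes, ∏ χ : YY n L F, eul n D χ s p =
      ∏ v : {v : HeightOneSpectrum (𝓞 F) // below v = p}, factor (ED D) s v.1 := by
    intro p
    have h3 : ∀ v : {v : HeightOneSpectrum (𝓞 F) // below v = p}, factor (ED D) s v.1 =
        (1 - pw (ap (ED D) p : ℂ) (pp D p) (deg v.1) * (((p : ℕ) : ℂ) ^ (-s)) ^ deg v.1 +
          pp D p ^ deg v.1 * (((p : ℕ) : ℂ) ^ (-s)) ^ (2 * deg v.1))⁻¹ := by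
      rintro ⟨v, hv⟩
      rw [fE_eq hD5 v s, hv]
    rw [Finset.prod_congr rfl (fun v _ => h3 v), Finset.prod_inv_distrib,
      local_quad n L F p (ap (ED D) p : ℂ) (pp D p) (((p : ℕ) : ℂ) ^ (-s)),
      ← Finset.prod_inv_distrib]
    refine Finset.prod_congr rfl fun χ _ => ?_
    unfold eul
    congr 1
    have e1 : ((p : ℕ) : ℂ) ^ (-2 * s) = (((p : ℕ) : ℂ) ^ (-s)) ^ 2 := by
      rw [← Complex.cpow_nat_mul]
      congr 1
      push_cast
      ring
    rw [e1]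
    ring
  simp_rw [h2] at h1
  have h3 : Multipliable (factor (K := F) (ED D) s) := multipliable_fE D s hs
  rw [← (Equiv.sigmaFiberEquiv (below (K := F))).hasProd_iff]
  refine HasProd.sigma_of_hasProd h1 (fun p => ?_) ?_
  · exact hasProd_fintype _
  · exact (Equiv.sigmaFiberEquiv (below (K := F))).multipliable_iff.2 h3

end prod

end Pool.Agent.U621.TWX
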