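import Mathlib
import Pool.Agent.U621.PAR.Zero
import Pool.Agent.U621.X20.Cls
import Pool.Agent.Y682.XF.Def

/-!
# The rank of the twists of the curve `y² = x³ - 11 x² - x` over multiquadratic fields
-/

set_option autoImplicit false

set_option linter.unusedSectionVars false

set_option linter.unusedVariables false

namespace Pool.Agent.U621.TWX

open Finset NumberField IsCyclotomicExtension.Rat H300.HW WeierstrassCurve

open Pool.Agent.TH841.NF Pool.Agent.Y682

open Pool.Agent.Y18.BSD Pool.Agent.Y18.NF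

open Pool.Agent.U621.PAR (mtu pk pk_cases pk_ext pk_inj pk_ne mtu_pk Tor IsTwo two_le sqrt_mem T_prime
  dd_dvd_q disc_natAbs real_char real_jc)

/-- the curve -/
abbrev VV (D : ℤ) (k : Type) [Field k] : WeierstrassCurve k := gc (-11 * D) (-D ^ 2) k

/-- the rank -/
noncomputable def RV (k : Type) [Field k] (D : ℤ) : ℕ := Module.finrank ℤ (MP (VV D k))

lemma sc_hom (D : ℤ) {k k' : Type} [Field k] [Field k'] (ι : k →+* k') :
    Sc ι 1 (VV D k) (VV D k') := by
  refine ⟨one_ne_zero, ?_, ?_, ?_, ?_, ?_⟩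
  · change (0 : k') = ι (0 : k) * 1; rw [map_zero, zero_mul]
  · change (((-11 * D : ℤ) : k')) = ι (((-11 * D : ℤ) : k)) * 1 ^ 2
    rw [map_intCast]; ring
  · change (0 : k') = ι (0 : k) * 1 ^ 3; rw [map_zero, zero_mul]
  · change (((-D ^ 2 : ℤ) : k')) = ι (((-D ^ 2 : ℤ) : k)) * 1 ^ 4
    rw [map_intCast]; ring
  · change (0 : k') = ι (0 : k) * 1 ^ 6; rw [map_zero, zero_mul]



/-- the map of the points -/
noncomputable def ac (D : ℤ) {k k' : Type} [Field k] [Field k'] (ι : k →+* k') :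
    MP (VV D k) →+ MP (VV D k') := mtu (sc_hom D ι)

lemma ns_map {D : ℤ} {k k' : Type} [Field k] [Field k'] (ι : k →+* k') {x y : k} :
    (VV D k').toAffine.Nonsingular (ι x) (ι y) ↔ (VV D k).toAffine.Nonsingular x y := by
  have h1 := ns_iff (sc_hom D ι) x y
  rwa [one_pow, one_pow, mul_one, mul_one] at h1

lemma ac_pk {D : ℤ} {k k' : Type} [Field k] [Field k'] (ι : k →+* k') (x y : k)
    (h : (VV D k).toAffine.Nonsingular x y) :
    ac D ι (pk (VV D k) x y h) = pk (VV D k') (ι x) (ι y) ((ns_map ι).2 h) := by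
  show mtu (sc_hom D ι) (pk (VV D k) x y h) = _
  rw [mtu_pk]
  exact pk_ext (by rw [one_pow, mul_one]) (by rw [one_pow, mul_one])

/-- when the action is trivial -/
lemma ac_fix {D : ℤ} {k : Type} [Field k] (ι : k →+* k) {x y : k} (h : (VV D k).toAffine.Nonsingular x y) :
    ac D ι (pk (VV D k) x y h) = pk (VV D k) x y h ↔ ι x = x ∧ ι y = y := by
  rw [ac_pk]
  exact ⟨pk_inj, fun h1 => pk_ext h1.1 h1.2⟩

lemma ac_comp {D : ℤ} {k : Type} [Field k] (ι κ ν : k →+* k) (h : ∀ x, ν x = ι (κ x)) (P : MP (VV D k)) :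
    ac D ν P = ac D ι (ac D κ P) := by
  rcases pk_cases P with rfl | ⟨x, y, hx, rfl⟩
  · rw [map_zero, map_zero, map_zero]
  · rw [ac_pk, ac_pk, ac_pk]
    exact pk_ext (h x) (h y)

lemma ac_id {D : ℤ} {k : Type} [Field k] (ι : k →+* k) (h : ∀ x, ι x = x) (P : MP (VV D k)) :
    ac D ι P = P := by
  rcases pk_cases P with rfl | ⟨x, y, hx, rfl⟩
  · exact map_zero _
  · exact (ac_fix ι hx).2 ⟨h x, h y⟩

section

variable {q : ℕ} [NeZero q] {L : Type} [Field L] [NumberField L] [IsCyclotomicExtension {q} ℚ L]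

/-- the points with coordinates in the subfield `F` -/
noncomputable def UU (D : ℤ) (F : IntermediateField ℚ L) : Submodule ℤ (MP (VV D L)) where
  carrier := {P | ∀ σ ∈ F.fixingSubgroup, ac D (σ : L →+* L) P = P}
  zero_mem' := fun σ _ => map_zero _
  add_mem' := fun {a b} ha hb σ hσ => by rw [map_add, ha σ hσ, hb σ hσ]
  smul_mem' := fun c a ha σ hσ => by rw [map_zsmul, ha σ hσ]

lemma mem_UU {D : ℤ} {F : IntermediateField ℚ L} {P : MP (VV D L)} :
    P ∈ UU D F ↔ ∀ σ ∈ F.fixingSubgroup, ac D (σ : L →+* L) P = P := Iff.rfl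

lemma mem_UU_pk {D : ℤ} (hgal : IsGalois ℚ L) {F : IntermediateField ℚ L} {x y : L}
    (h : (VV D L).toAffine.Nonsingular x y) : pk (VV D L) x y h ∈ UU D F ↔ x ∈ F ∧ y ∈ F := by
  have key : ∀ z : L, z ∈ F ↔ ∀ σ ∈ F.fixingSubgroup, σ z = z := by
    intro z
    conv_lhs => rw [← IsGalois.fixedField_fixingSubgroup F]
    rw [IntermediateField.mem_fixedField_iff]
  rw [mem_UU, key x, key y]
  constructor
  · intro h1
    exact ⟨fun σ hσ => ((ac_fix _ h).1 (h1 σ hσ)).1, fun σ hσ => ((ac_fix _ h).1 (h1 σ hσ)).2⟩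
  · rintro ⟨h1, h2⟩ σ hσ
    exact (ac_fix _ h).2 ⟨h1 σ hσ, h2 σ hσ⟩

/-- the rank over `F` -/
theorem finrank_UU (D : ℤ) (hgal : IsGalois ℚ L) (F : IntermediateField ℚ L) :
    Module.finrank ℤ (UU D F) = RV F D := by
  have h1 : RV F D = Module.finrank ℤ (MP (VV D F)) := rfl
  rw [h1]
  set f : MP (VV D F) →+ MP (VV D L) := ac D (algebraMap F L) with hf
  have hmem : ∀ P : MP (VV D F), f P ∈ UU D F := by
    intro P
    rcases pk_cases P with rfl | ⟨x, y, hx, rfl⟩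
    · rw [map_zero]
      exact (UU D F).zero_mem
    · rw [hf, ac_pk, mem_UU_pk hgal]
      exact ⟨x.2, y.2⟩
  let g : MP (VV D F) →ₗ[ℤ] UU D F :=
    { toFun := fun P => ⟨f P, hmem P⟩
      map_add' := fun P Q => Subtype.ext (map_add f P Q)
      map_smul' := fun c P => Subtype.ext (map_zsmul f c P) }
  refine (LinearEquiv.finrank_eq (LinearEquiv.ofBijective g ⟨?_, ?_⟩)).symm
  · intro P Q hPQ
    have h2 : f P = f Q := congrArg (fun x : UU D F => (x : MP (VV D L))) hPQ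
    rw [hf] at h2
    rcases pk_cases P with rfl | ⟨x, y, hx, rfl⟩ <;> rcases pk_cases Q with rfl | ⟨x', y', hx', rfl⟩
    · rfl
    · rw [ac_pk, map_zero] at h2
      exact absurd h2.symm pk_ne
    · rw [ac_pk, map_zero] at h2
      exact absurd h2 pk_ne
    · rw [ac_pk, ac_pk] at h2
      obtain ⟨h3, h4⟩ := pk_inj h2
      exact pk_ext (Subtype.ext h3) (Subtype.ext h4)
  · rintro ⟨P, hP⟩
    rcases pk_cases P with rfl | ⟨x, y, hx, rfl⟩
    · exact ⟨0, Subtype.ext (map_zero f)⟩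
    · have h2 := (mem_UU_pk hgal hx).1 hP
      have hns : (VV D F).toAffine.Nonsingular (⟨x, h2.1⟩ : F) (⟨y, h2.2⟩ : F) :=
        (ns_map (algebraMap F L)).1 hx
      refine ⟨pk (VV D F) ⟨x, h2.1⟩ ⟨y, h2.2⟩ hns, Subtype.ext ?_⟩
      show f (pk (VV D F) ⟨x, h2.1⟩ ⟨y, h2.2⟩ hns) = _
      rw [hf, ac_pk]
      rfl

lemma fg_L {D : ℤ} (hD : D ≠ 0) : Module.Finite ℤ (MP (VV D L)) := by
  have h2 : D ^ 2 ≠ 0 := pow_ne_zero 2 hD
  refine fg_MP (gc_isT (A := -11 * D) (B := -D ^ 2) ?_ ?_ L)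
  · exact neg_ne_zero.2 h2
  · have e1 : (-11 * D) ^ 2 - 4 * (-D ^ 2) = 125 * D ^ 2 := by ring
    rw [e1]
    exact mul_ne_zero (by norm_num) h2

/-- the Galois group acts commutatively -/
lemma gal_comm (q : ℕ) [NeZero q] (L : Type) [Field L] [NumberField L]
    [IsCyclotomicExtension {q} ℚ L] (σ τ : Gal(L/ℚ)) : σ * τ = τ * σ :=
  (galEquivZMod q L).injective (by rw [map_mul, map_mul, mul_comm])

/-- a simultaneous eigenvector -/
theorem exists_eig {D : ℤ} {M : IntermediateField ℚ L} (hcomm : ∀ σ τ : Gal(L/ℚ), σ * τ = τ * σ)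
    (hinv : ∀ P ∈ UU D M, ∀ σ : Gal(L/ℚ), ac D (σ : L →+* L) (ac D (σ : L →+* L) P) = P)
    (hst : ∀ P ∈ UU D M, ∀ σ : Gal(L/ℚ), ac D (σ : L →+* L) P ∈ UU D M)
    {P₀ : MP (VV D L)} (h0 : P₀ ∈ UU D M) (h0t : ¬ Tor P₀) (S : Finset Gal(L/ℚ)) :
    ∃ P ∈ UU D M, ¬ Tor P ∧ ∀ σ ∈ S, ac D (σ : L →+* L) P = P ∨ ac D (σ : L →+* L) P = -P := by
  classical
  induction S using Finset.induction_on with
  | empty => exact ⟨P₀, h0, h0t, fun σ hσ => absurd hσ (notMem_empty σ)⟩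
  | insert σ S hσ ih =>
    obtain ⟨P, hP, hPt, hS⟩ := ih
    set Q := ac D (σ : L →+* L) P with hQ
    have hQM : Q ∈ UU D M := hst P hP σ
    have hQQ : ac D (σ : L →+* L) Q = P := hinv P hP σ
    have hcom : ∀ τ : Gal(L/ℚ), ac D (τ : L →+* L) Q = ac D (σ : L →+* L) (ac D (τ : L →+* L) P) := by
      intro τ
      rw [hQ, ← ac_comp (τ : L →+* L) (σ : L →+* L) ((τ * σ : Gal(L/ℚ)) : L →+* L) fun x => rfl]
      rw [ac_comp (σ : L →+* L) (τ : L →+* L) ((τ * σ : Gal(L/ℚ)) : L →+* L) fun x =>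
        DFunLike.congr_fun (hcomm τ σ) x]
    have hQS : ∀ τ ∈ S, (ac D (τ : L →+* L) P = P ∧ ac D (τ : L →+* L) Q = Q) ∨
        (ac D (τ : L →+* L) P = -P ∧ ac D (τ : L →+* L) Q = -Q) := by
      intro τ hτ
      rcases hS τ hτ with h | h
      · exact Or.inl ⟨h, by rw [hcom, h]⟩
      · exact Or.inr ⟨h, by rw [hcom, h, map_neg]⟩
    by_cases hplus : Tor (P + Q)
    · refine ⟨P - Q, (UU D M).sub_mem hP hQM, fun ht => hPt ?_, fun τ hτ => ?_⟩
      · apply Tor.half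
        have h1 : P + P = (P + Q) + (P - Q) := by abel
        rw [h1]
        exact hplus.add ht
      · rcases mem_insert.1 hτ with rfl | hτ
        · right
          rw [map_sub, hQQ, ← hQ]
          abel
        · rcases hQS τ hτ with ⟨h1, h2⟩ | ⟨h1, h2⟩
          · left; rw [map_sub, h1, h2]
          · right; rw [map_sub, h1, h2]; abel
    · refine ⟨P + Q, (UU D M).add_mem hP hQM, hplus, fun τ hτ => ?_⟩
      rcases mem_insert.1 hτ with rfl | hτ
      · left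
        rw [map_add, hQQ, ← hQ]
        abel
      · rcases hQS τ hτ with ⟨h1, h2⟩ | ⟨h1, h2⟩
        · left; rw [map_add, h1, h2]
        · right; rw [map_add, h1, h2]; abel

/-- negation -/
lemma neg_pk {D : ℤ} {k : Type} [Field k] {x y : k} (h : (VV D k).toAffine.Nonsingular x y) :
    ∃ h', -(pk (VV D k) x y h) = pk (VV D k) x (-y) h' := by
  have h1 : (VV D k).toAffine.negY x y = -y := by
    unfold Affine.negY
    change -y - (0 : k) * x - 0 = -y
    ring
  have h2 : (VV D k).toAffine.Nonsingular x (-y) := by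
    rw [← h1]
    exact (Affine.nonsingular_neg x y).2 h
  refine ⟨h2, ?_⟩
  show -(Affine.Point.some x y h : (VV D k).toAffine.Point) = Affine.Point.some x (-y) h2
  rw [Affine.Point.neg_some]
  have key : ∀ (z : k) (hz : (VV D k).toAffine.Nonsingular x z), z = -y →
      (Affine.Point.some x z hz : (VV D k).toAffine.Point) = Affine.Point.some x (-y) h2 := by
    intro z hz e
    subst e
    rfl
  exact key _ _ h1

/-- the scaling to the twist -/
lemma sc_tw {D e : ℤ} {g : L} (hg : g ^ 2 = (e : L)) (he : e ≠ 0) :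
    Sc (algebraMap ℚ L) g⁻¹ (VV (D * e) ℚ) (VV D L) := by
  have hgne : g ≠ 0 := by
    rintro rfl
    rw [zero_pow two_ne_zero] at hg
    exact he (by exact_mod_cast hg.symm)
  have h2 : g⁻¹ ^ 2 * (e : L) = 1 := by
    rw [← hg, inv_pow, inv_mul_cancel₀ (pow_ne_zero 2 hgne)]
  refine ⟨inv_ne_zero hgne, ?_, ?_, ?_, ?_, ?_⟩
  · change (0 : L) = algebraMap ℚ L (0 : ℚ) * g⁻¹; rw [map_zero, zero_mul]
  · change (((-11 * D : ℤ) : L)) = algebraMap ℚ L (((-11 * (D * e) : ℤ) : ℚ)) * g⁻¹ ^ 2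
    rw [map_intCast]
    push_cast
    linear_combination (11 * (D : L)) * h2
  · change (0 : L) = algebraMap ℚ L (0 : ℚ) * g⁻¹ ^ 3; rw [map_zero, zero_mul]
  · change (((-D ^ 2 : ℤ) : L)) = algebraMap ℚ L (((-(D * e) ^ 2 : ℤ) : ℚ)) * g⁻¹ ^ 4
    rw [map_intCast]
    push_cast
    have h4 : g⁻¹ ^ 4 * (e : L) ^ 2 = 1 := by
      have : g⁻¹ ^ 4 * (e : L) ^ 2 = (g⁻¹ ^ 2 * (e : L)) ^ 2 := by ring
      rw [this, h2, one_pow]
    linear_combination ((D : L) ^ 2) * h4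
  · change (0 : L) = algebraMap ℚ L (0 : ℚ) * g⁻¹ ^ 6; rw [map_zero, zero_mul]

/-- **The rank over the largest subfield of exponent two.** -/
theorem rank_zero (hq : Odd q) {D : ℤ} (hD : D ≠ 0) {F M : IntermediateField ℚ L}
    (h : IsTwo F M)
    (hT : ∀ T ⊆ q.primeFactors, (∀ σ ∈ F.fixingSubgroup, jc T (galEquivZMod q L σ) = 1) →
      RV ℚ (D * disc T) = 0) : RV M D = 0 := by
  classical
  have hgal : IsGalois ℚ L := IsCyclotomicExtension.isGalois {q} ℚ L
  have hfg : Module.Finite ℤ (MP (VV D L)) := fg_L hD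
  rw [← finrank_UU D hgal M]
  rw [Module.finrank_eq_zero_iff_isTorsion]
  by_contra hnt
  -- a point of infinite order
  obtain ⟨P₀, hP₀, hP₀t⟩ : ∃ P ∈ UU D M, ¬ Tor P := by
    by_contra hall
    push Not at hall
    apply hnt
    intro P
    obtain ⟨k, hk, hkP⟩ := hall P.1 P.2
    exact ⟨⟨k, mem_nonZeroDivisors_of_ne_zero hk⟩, Subtype.ext hkP⟩
  have hinv : ∀ P ∈ UU D M, ∀ σ : Gal(L/ℚ),
      ac D (σ : L →+* L) (ac D (σ : L →+* L) P) = P := by
    intro P hP σ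
    rcases pk_cases P with rfl | ⟨x, y, hx, rfl⟩
    · rw [map_zero, map_zero]
    · rw [mem_UU_pk hgal, h x, h y] at hP
      rw [ac_pk, ac_pk]
      exact pk_ext (hP.1.2 σ) (hP.2.2 σ)
  have hcomm := gal_comm q L
  have hst : ∀ P ∈ UU D M, ∀ σ : Gal(L/ℚ), ac D (σ : L →+* L) P ∈ UU D M := by
    intro P hP σ τ hτ
    rw [← ac_comp (τ : L →+* L) (σ : L →+* L) ((τ * σ : Gal(L/ℚ)) : L →+* L) fun x => rfl]
    rw [ac_comp (σ : L →+* L) (τ : L →+* L) ((τ * σ : Gal(L/ℚ)) : L →+* L) fun x =>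
      DFunLike.congr_fun (hcomm τ σ) x]
    rw [hP τ hτ]
  have hfG : Fintype Gal(L/ℚ) := Fintype.ofFinite _
  obtain ⟨P, hP, hPt, hPe⟩ := exists_eig hcomm hinv hst hP₀ hP₀t (Finset.univ : Finset Gal(L/ℚ))
  rcases pk_cases P with rfl | ⟨x, y, hx, rfl⟩
  · exact hPt ⟨1, one_ne_zero, smul_zero _⟩
  obtain ⟨hneg, hneg'⟩ := neg_pk hx
  have hxy : ∀ σ : Gal(L/ℚ), σ x = x ∧ (σ y = y ∨ σ y = -y) := by
    intro σ
    rcases hPe σ (mem_univ σ) with h1 | h1
    · rw [ac_pk] at h1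
      obtain ⟨h2, h3⟩ := pk_inj h1
      exact ⟨h2, Or.inl h3⟩
    · rw [ac_pk, hneg'] at h1
      obtain ⟨h2, h3⟩ := pk_inj h1
      exact ⟨h2, Or.inr h3⟩
  have hy0 : y ≠ 0 := by
    intro hy
    apply hPt
    apply Tor.half
    refine ⟨1, one_ne_zero, ?_⟩
    rw [one_smul]
    have h1 : pk (VV D L) x y hx = -(pk (VV D L) x y hx) := by
      rw [hneg']
      exact pk_ext rfl (by rw [hy, neg_zero])
    nth_rewrite 2 [h1]
    exact add_neg_cancel _
  -- the character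
  set θ : (ZMod q)ˣ → ℤ := fun u => if (galEquivZMod q L).symm u y = y then 1 else -1 with hθ
  have hθy : ∀ u : (ZMod q)ˣ, (galEquivZMod q L).symm u y = ((θ u : ℤ) : L) * y := by
    intro u
    rw [hθ]
    dsimp only
    split_ifs with h1
    · rw [h1, Int.cast_one, one_mul]
    · rw [((hxy _).2).resolve_left h1, Int.cast_neg, Int.cast_one, neg_one_mul]
  obtain ⟨T, hTq, hTθ⟩ := real_char hq θ (by
    intro u v
    have h1 : ((θ (u * v) : ℤ) : L) * y = ((θ u * θ v : ℤ) : L) * y := by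
      rw [← hθy, map_mul]
      show (galEquivZMod q L).symm u ((galEquivZMod q L).symm v y) = _
      rw [hθy v, map_mul, map_intCast, hθy u]
      push_cast
      ring
    exact_mod_cast mul_right_cancel₀ hy0 h1) (by
    intro u
    rw [hθ]
    dsimp only
    split_ifs
    · exact Or.inl rfl
    · exact Or.inr rfl)
  have hyM := ((mem_UU_pk hgal hx).1 hP).2
  have hTF : ∀ σ ∈ F.fixingSubgroup, jc T (galEquivZMod q L σ) = 1 := by
    intro σ hσ
    have h1 : σ y = y := by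
      rw [IntermediateField.mem_fixingSubgroup_iff] at hσ
      exact hσ y ((two_le h) hyM)
    rw [← hTθ, hθ]
    dsimp only
    rw [MulEquiv.symm_apply_apply, if_pos h1]
  obtain ⟨g, hgF, hg2, hgσ⟩ := sqrt_mem hq F hTq hTF
  have hTp := T_prime hq hTq
  have hdisc0 : disc T ≠ 0 := by
    intro h0
    have h1 := disc_natAbs T
    rw [h0, Int.natAbs_zero] at h1
    exact dd_ne_zero (fun p hp => (hTp p hp).1) h1.symm
  have hg0 : g ≠ 0 := by
    rintro rfl
    rw [zero_pow two_ne_zero] at hg2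
    exact hdisc0 (by exact_mod_cast hg2.symm)
  -- the coordinates are rational
  have hrat : ∀ z : L, (∀ σ : Gal(L/ℚ), σ z = z) → ∃ r : ℚ, algebraMap ℚ L r = z := by
    intro z hz
    have h1 : z ∈ (⊥ : IntermediateField ℚ L) := by
      rw [← InfiniteGalois.fixedField_bot] <;> try infer_instance
      rw [IntermediateField.mem_fixedField_iff]
      exact fun σ _ => hz σ
    exact IntermediateField.mem_bot.1 h1
  obtain ⟨x₀, hx₀⟩ := hrat x fun σ => (hxy σ).1
  obtain ⟨w, hw⟩ := hrat (y / g) (by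
    intro σ
    rw [map_div₀, hgσ σ]
    have h1 := hθy (galEquivZMod q L σ)
    rw [MulEquiv.symm_apply_apply, hTθ] at h1
    rw [h1]
    have h2 : ((jc T (galEquivZMod q L σ) : ℤ) : L) ≠ 0 := by
      have h3 := jc_sq T (dd_dvd_q hTq) (galEquivZMod q L σ)
      intro h4
      have h5 : jc T (galEquivZMod q L σ) = 0 := by exact_mod_cast h4
      rw [h5] at h3
      norm_num at h3
    field_simp)
  have hyw : y = algebraMap ℚ L w * g := by
    rw [hw, div_mul_cancel₀ _ hg0]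
  -- the point on the twist
  have hS := sc_tw (D := D) hg2 hdisc0
  set e : ℤ := disc T with he
  have hgi : g⁻¹ ^ 2 * ((e : ℤ) : L) = 1 := by
    rw [← hg2, inv_pow, inv_mul_cancel₀ (pow_ne_zero 2 hg0)]
  have hX : algebraMap ℚ L (x₀ * e) * g⁻¹ ^ 2 = x := by
    rw [map_mul, map_intCast, hx₀]
    linear_combination x * hgi
  have hY : algebraMap ℚ L (w * e ^ 2) * g⁻¹ ^ 3 = y := by
    rw [map_mul, map_pow, map_intCast, hyw]
    have h4 : g⁻¹ ^ 4 * ((e : ℤ) : L) ^ 2 = 1 := by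
      have : g⁻¹ ^ 4 * ((e : ℤ) : L) ^ 2 = (g⁻¹ ^ 2 * ((e : ℤ) : L)) ^ 2 := by ring
      rw [this, hgi, one_pow]
    have h5 : g⁻¹ ^ 3 = g * g⁻¹ ^ 4 := by
      field_simp
    rw [h5]
    linear_combination (algebraMap ℚ L w * g) * h4
  have hns : (VV (D * e) ℚ).toAffine.Nonsingular (x₀ * e) (w * e ^ 2) := by
    rw [← ns_iff hS, hX, hY]
    exact hx
  have himg : mtu hS (pk (VV (D * e) ℚ) _ _ hns) = pk (VV D L) x y hx := by
    rw [mtu_pk]
    exact pk_ext hX hY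
  apply hPt
  rw [← himg]
  apply Tor.map
  -- the group over the rational numbers is torsion
  have hDe : D * e ≠ 0 := mul_ne_zero hD hdisc0
  have h1 : Module.finrank ℤ (MP (VV (D * e) ℚ)) = 0 := hT T hTq hTF
  have hfgQ : Module.Finite ℤ (MP (VV (D * e) ℚ)) := fg_L hDe
  rw [Module.finrank_eq_zero_iff_isTorsion] at h1
  obtain ⟨k, hk⟩ := @h1 (pk (VV (D * e) ℚ) _ _ hns)
  exact ⟨(k : ℤ), nonZeroDivisors.coe_ne_zero k, hk⟩

end

end Pool.Agent.U621.TWX
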