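import Mathlib
import Pool.Agent.U621.TWX.Eul
import Pool.Agent.U621.TWX.Rk
import Pool.Agent.U621.PAR.Quad

/-!
# The twists of the curve `y² = x³ - 11 x² - x` over multiquadratic fields
-/

set_option autoImplicit false

set_option linter.unusedSectionVars false

set_option linter.unusedVariables false

namespace Pool.Agent.U621.TWX

open Finset NumberField IsCyclotomicExtension.Rat H300.HW WeierstrassCurve IsDedekindDomain

open Pool.Agent.Y682.XF (base pts a factor rank)
open Pool.Agent.Y695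
open Pool.Agent.Y702.L (pv)
open Pool.Agent.W97.MT (ap affCount)
open Pool.Agent.Y18.BSD (disc dd jc dd_sqfree dd_ne_zero)
open Pool.Agent.U621.PAR (IsTwo real_jc sqrt_mem T_prime dd_dvd_q disc_natAbs sqrt_disc)
open Pool.Agent.Y682 (gc MP fg_MP gc_isT)

lemma base_eq (D : ℤ) (k : Type) [Field k] : base (ED D) k = VV D k := by
  unfold ED
  ext <;> simp [gc, WeierstrassCurve.map]

lemma rank_eq (D : ℤ) (k : Type) [Field k] [NumberField k] : rank k (ED D) = RV k D := by
  unfold rank RV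
  rw [base_eq]
  rfl

lemma finite_iff (D : ℤ) (k : Type) [Field k] :
    Finite (base (ED D) k).toAffine.Point ↔ Finite (MP (VV D k)) := by
  rw [base_eq]
  exact Iff.rfl

/-- rank zero and finiteness -/
lemma RV_zero_of_finite (D : ℤ) (k : Type) [Field k] (h : Finite (MP (VV D k))) : RV k D = 0 := by
  unfold RV
  rw [Module.finrank_eq_zero_iff_isTorsion]
  intro P
  have h1 : addOrderOf P ≠ 0 := (addOrderOf_pos P).ne'
  refine ⟨⟨(addOrderOf P : ℤ), mem_nonZeroDivisors_of_ne_zero (by exact_mod_cast h1)⟩, ?_⟩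
  show ((addOrderOf P : ℕ) : ℤ) • P = 0
  rw [natCast_zsmul, addOrderOf_nsmul_eq_zero]

lemma finite_of_RV {D : ℤ} (hD : D ≠ 0) (k : Type) [Field k] [NumberField k] (h : RV k D = 0) :
    Finite (MP (VV D k)) := by
  have hfg : Module.Finite ℤ (MP (VV D k)) := fg_L hD
  refine Module.finite_of_fg_torsion _ ?_
  rw [← Module.finrank_eq_zero_iff_isTorsion]
  exact h

lemma ch_dd {T : Finset ℕ} (hT : ∀ p ∈ T, p.Prime) (a : ℤ) : ch T a = jacobiSym a (dd T) := by
  classical
  induction T using Finset.induction_on with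
  | empty =>
    rw [ch_empty]
    unfold dd
    simp
  | insert q T hq ih =>
    have hT' : ∀ p ∈ T, p.Prime := fun p hp => hT p (mem_insert_of_mem hp)
    have h1 : NeZero q := ⟨(hT q (mem_insert_self _ _)).ne_zero⟩
    have h2 : NeZero (dd T) := ⟨dd_ne_zero hT'⟩
    have h3 : dd (insert q T) = q * dd T := by
      unfold dd
      rw [prod_insert hq]
    rw [ch_insert hq, ih hT', h3, jacobiSym.mul_right]

/-- the class of the twists -/
def Cls (D : ℤ) : Prop := Squarefree D ∧ D % 4 = 1 ∧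
  ∀ p : ℕ, p.Prime → (p : ℤ) ∣ D → p % 20 = 3 ∨ p % 20 = 7

section

variable {n : ℕ} [NeZero n]

/-- the product with the discriminant of a set of primes -/
theorem cls_mul {D : ℤ} (hD : Cls D) (hn : ∀ p : ℕ, p.Prime → p ∣ n → p % 20 = 3 ∨ p % 20 = 7)
    (hco : n.Coprime D.natAbs) {T : Finset ℕ} (hT : T ⊆ n.primeFactors) : Cls (D * disc T) := by
  classical
  have hTp : ∀ p ∈ T, p.Prime := fun p hp => Nat.prime_of_mem_primeFactors (hT hp)
  have hdn : (disc T).natAbs ∣ n := by rw [disc_natAbs]; exact dd_dvd_q hT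
  have hsT : Squarefree (disc T) := by
    rw [← Int.squarefree_natAbs, disc_natAbs]
    exact dd_sqfree hTp
  have hc : IsCoprime D (disc T) := by
    rw [Int.isCoprime_iff_nat_coprime]
    exact (Nat.Coprime.coprime_dvd_left hdn hco).symm
  have h4 : disc T % 4 = 1 := by
    have hT4 : ∀ p ∈ T, p % 4 = 3 := by
      intro p hp
      have := hn p (hTp p hp) (Nat.dvd_of_mem_primeFactors (hT hp))
      omega
    clear hdn hsT hc hTp hT
    induction T using Finset.induction_on with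
    | empty =>
      unfold disc
      simp
    | insert q T hq ih =>
      have h5 := ih fun p hp => hT4 p (mem_insert_of_mem hp)
      have h6 := hT4 q (mem_insert_self _ _)
      have h7 : disc (insert q T) = ((-1 : ℤ) ^ ((q - 1) / 2) * q) * disc T := by
        unfold disc
        rw [prod_insert hq]
      have h8 : Odd ((q - 1) / 2) := by
        rw [Nat.odd_iff]
        omega
      rw [h7, h8.neg_one_pow, Int.mul_emod, h5]
      omega
  refine ⟨?_, ?_, fun p hp hpD => ?_⟩
  · rw [← Int.squarefree_natAbs, Int.natAbs_mul, Nat.squarefree_mul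
      (Int.isCoprime_iff_nat_coprime.1 hc)]
    exact ⟨Int.squarefree_natAbs.2 hD.1, Int.squarefree_natAbs.2 hsT⟩
  · rw [Int.mul_emod, hD.2.1, h4]
    norm_num
  · rcases (Nat.prime_iff_prime_int.1 hp).dvd_mul.1 hpD with h | h
    · exact hD.2.2 p hp h
    · exact hn p hp ((Int.natCast_dvd.1 h).trans hdn)

/-- the coefficients of the twist -/
theorem ap_mul {D : ℤ} (hD : Cls D) (hn : ∀ p : ℕ, p.Prime → p ∣ n → p % 20 = 3 ∨ p % 20 = 7)
    (hco : n.Coprime D.natAbs) {T : Finset ℕ} (hT : T ⊆ n.primeFactors) {p : ℕ} (hp : p.Prime) :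
    ap (ED (D * disc T)) p = ap (ED D) p * jacobiSym p (dd T) := by
  classical
  have hTp : ∀ p ∈ T, p.Prime := fun p hp => Nat.prime_of_mem_primeFactors (hT hp)
  have hD' := cls_mul hD hn hco hT
  have h5 : ∀ {D : ℤ}, Cls D → ¬ (5 : ℤ) ∣ D := by
    intro D hD h
    have := hD.2.2 5 (by norm_num) (by exact_mod_cast h)
    omega
  obtain ⟨a1, a2⟩ := X20.exists_S hD.1 hD.2.1 (h5 hD)
  obtain ⟨b1, b2⟩ := X20.exists_S hD'.1 hD'.2.1 (h5 hD')
  have hu : (D * disc T).natAbs.primeFactors = D.natAbs.primeFactors ∪ T := by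
    rw [Int.natAbs_mul, Nat.primeFactors_mul (Int.natAbs_ne_zero.2 hD.1.ne_zero) (by
      rw [disc_natAbs]; exact dd_ne_zero hTp), disc_natAbs]
    congr 1
    exact Nat.primeFactors_prod hTp
  have hdis : Disjoint D.natAbs.primeFactors T := by
    rw [Finset.disjoint_left]
    intro r hr hrT
    have h8 := Nat.dvd_of_mem_primeFactors (hT hrT)
    have h9 := Nat.dvd_of_mem_primeFactors hr
    exact (hTp r hrT).one_lt.ne' (Nat.eq_one_of_dvd_coprimes hco h8 h9)
  have e1 : ap (ED (D * disc T)) p = ch (D * disc T).natAbs.primeFactors p * W97.V20.A p := by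
    conv_lhs => rw [← b2]
    exact ap_twist b1 hp
  have e2 : ap (ED D) p = ch D.natAbs.primeFactors p * W97.V20.A p := by
    conv_lhs => rw [← a2]
    exact ap_twist a1 hp
  have e3 : ch (D.natAbs.primeFactors ∪ T) p = ch D.natAbs.primeFactors p * ch T p := by
    unfold ch
    exact prod_union hdis
  rw [e1, e2, hu, e3, ch_dd hTp]
  ring

variable {L : Type} [Field L] [NumberField L] [IsCyclotomicExtension {n} ℚ L]

/-- the Euler factor of the twist -/
theorem eul_eq {D : ℤ} (hD : Cls D) (hn : ∀ p : ℕ, p.Prime → p ∣ n → p % 20 = 3 ∨ p % 20 = 7)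
    (hco : n.Coprime D.natAbs) {T : Finset ℕ} (hT : T ⊆ n.primeFactors)
    {χ : DirichletCharacter ℂ n} (hχ : ∀ u : (ZMod n)ˣ, χ (u : ZMod n) = (jc T u : ℂ)) (s : ℂ)
    (p : Nat.Primes) :
    eul n D χ s p = (1 - (ap (ED (D * disc T)) p : ℂ) * ((p : ℕ) : ℂ) ^ (-s) +
      (if ((p : ℕ) : ℤ) ∣ (ED (D * disc T)).Δ then 0 else ((p : ℕ) : ℂ) ^ (1 - 2 * s)))⁻¹ := by
  classical
  have hTp : ∀ p ∈ T, p.Prime := fun p hp => Nat.prime_of_mem_primeFactors (hT hp)
  have hT2 : ∀ p ∈ T, p.Prime ∧ p ≠ 2 := by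
    intro p hp
    refine ⟨hTp p hp, ?_⟩
    rintro rfl
    have := hn 2 Nat.prime_two (Nat.dvd_of_mem_primeFactors (hT hp))
    omega
  have hpv : pv n χ p = (jacobiSym (p : ℕ) (dd T) : ℂ) :=
    Pool.Agent.Y18.NF.pv_jac n hT2 (dd_dvd_q hT) hχ p
  have hp0 : ((p : ℕ) : ℂ) ≠ 0 := by exact_mod_cast p.2.ne_zero
  unfold eul
  rw [hpv, ap_mul hD hn hco hT p.2]
  congr 2
  · push_cast
    ring
  · by_cases h10 : ((p : ℕ) : ℤ) ∣ 10 * D
    · have h11 : ((p : ℕ) : ℤ) ∣ (ED (D * disc T)).Δ := by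
        rw [dvd_disc p.2, ← mul_assoc]
        exact h10.mul_right _
      rw [if_pos h11]
      unfold pp
      rw [if_pos h10, zero_mul, zero_mul]
    · unfold pp
      rw [if_neg h10]
      by_cases hpT : ((p : ℕ) : ℤ) ∣ disc T
      · have h11 : ((p : ℕ) : ℤ) ∣ (ED (D * disc T)).Δ := by
          rw [dvd_disc p.2, ← mul_assoc]
          exact hpT.mul_left _
        have h12 : (p : ℕ) ∣ dd T := by
          rw [← disc_natAbs]
          exact Int.natCast_dvd.1 hpT
        have h14 : NeZero (dd T) := ⟨dd_ne_zero hTp⟩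
        have h13 : jacobiSym (p : ℕ) (dd T) = 0 := by
          rw [jacobiSym.eq_zero_iff_not_coprime]
          intro h
          have h15 : (p : ℕ) ∣ Int.gcd ((p : ℕ) : ℤ) ((dd T : ℕ) : ℤ) := by
            rw [Int.gcd_natCast_natCast]
            exact Nat.dvd_gcd dvd_rfl h12
          rw [h] at h15
          exact p.2.one_lt.ne' (Nat.dvd_one.1 h15)
        rw [if_pos h11, h13]
        simp
      · have h11 : ¬ ((p : ℕ) : ℤ) ∣ (ED (D * disc T)).Δ := by
          rw [dvd_disc p.2, ← mul_assoc, (Nat.prime_iff_prime_int.1 p.2).dvd_mul]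
          rintro (h | h)
          · exact h10 h
          · exact hpT h
        have h12 : ¬ (p : ℕ) ∣ dd T := by
          rw [← disc_natAbs]
          exact fun h => hpT (Int.natCast_dvd.2 h)
        have h13 : jacobiSym (p : ℕ) (dd T) = 1 ∨ jacobiSym (p : ℕ) (dd T) = -1 := by
          apply jacobiSym.eq_one_or_neg_one
          rw [Int.gcd_natCast_natCast]
          exact (Nat.Prime.coprime_iff_not_dvd p.2).2 h12
        have h14 : ((jacobiSym (p : ℕ) (dd T) : ℤ) : ℂ) ^ 2 = 1 := by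
          rcases h13 with h | h <;> rw [h] <;> norm_num
        rw [if_neg h11, h14, mul_one, show (1 - 2 * s : ℂ) = 1 + -2 * s by ring,
          Complex.cpow_add _ _ hp0, Complex.cpow_one]

/-- the squarefree integers whose square roots lie in `F` -/
def Rt (F : IntermediateField ℚ L) : Type := {e : ℤ // Squarefree e ∧ ∃ z ∈ F, z ^ 2 = (e : L)}

/-- **The main theorem.** -/
theorem main {D : ℤ} (hD : Cls D) (hn : ∀ p : ℕ, p.Prime → p ∣ n → p % 20 = 3 ∨ p % 20 = 7)
    (hco : n.Coprime D.natAbs) (F : IntermediateField ℚ L)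
    (hF : ∀ x ∈ F, ∀ σ : Gal(L/ℚ), σ (σ x) = x) :
    (∃ Λ : ℂ → ℂ, Differentiable ℂ Λ ∧
      (∀ s : ℂ, 3 / 2 < s.re → HasProd (factor (K := F) (ED D) s) (Λ s)) ∧ Λ 1 ≠ 0 ∧
      ∃ a b : ℤ, b ≠ 0 ∧
        Λ 1 * b = a * ((∏ᶠ e : {e : ℤ // Squarefree e ∧ ∃ z ∈ F, z ^ 2 = (e : L)},
          Om (ED (D * e.1)) : ℝ) : ℂ)) ∧
    rank F (ED D) = 0 ∧ Finite (base (ED D) F).toAffine.Point := by
  classical
  have hodd : Odd n := by
    rw [Nat.odd_iff]
    by_contra h
    have h1 : 2 ∣ n := by omega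
    have := hn 2 Nat.prime_two h1
    omega
  have hgal : IsGalois ℚ L := IsCyclotomicExtension.isGalois {n} ℚ L
  have hD5 : ¬ (5 : ℤ) ∣ D := by
    intro h
    have := hD.2.2 5 (by norm_num) (by exact_mod_cast h)
    omega
  have hI : IsTwo F F := fun x => ⟨fun hx => ⟨hx, hF x hx⟩, fun hx => hx.1⟩
  have hTw : ∀ T ⊆ n.primeFactors, X20.TwoPart (ED (D * disc T)) := by
    intro T hT
    obtain ⟨h1, h2, h3⟩ := cls_mul hD hn hco hT
    exact (X20.inert h1 h2 h3).2
  -- the characters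
  have key : ∀ χ : YY n L F, ∃ (T : Finset ℕ) (Λ : ℂ → ℂ), T ⊆ n.primeFactors ∧
      (∀ u : (ZMod n)ˣ, (χ : DirichletCharacter ℂ n) (u : ZMod n) = (jc T u : ℂ)) ∧
      (∃ z ∈ F, z ^ 2 = ((disc T : ℤ) : L)) ∧ Differentiable ℂ Λ ∧
      (∀ s : ℂ, 3 / 2 < s.re → HasProd (fun p : Nat.Primes => eul n D χ s p) (Λ s)) ∧
      Λ 1 ≠ 0 ∧ ∃ a b : ℤ, b ≠ 0 ∧ Λ 1 * b = a * ((Om (ED (D * disc T)) : ℝ) : ℂ) := by
    rintro ⟨χ, hχ⟩
    obtain ⟨hχF, hχ2⟩ := (Pool.Agent.U621.PAR.YY_two hI χ).1 hχ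
    obtain ⟨T, hT, hTχ⟩ := real_jc hodd χ hχ2
    obtain ⟨g, hgF, hg2, -⟩ := sqrt_mem hodd F hT (by
      intro τ hτ
      rw [mem_YY] at hχF
      have h7 := hχF τ hτ
      rw [hTχ] at h7
      exact_mod_cast h7)
    obtain ⟨⟨hfin, k, hk, hcard⟩, -, Λ, hΛ, hΛ1, a, b, ha, hb, hab⟩ := hTw T hT
    refine ⟨T, Λ, hT, hTχ, ⟨g, hgF, hg2⟩, hΛ.1, fun s hs => ?_, hΛ1,
      a * tamProd (ED (D * disc T)), (2 * k) ^ 2 * b, ?_, ?_⟩
    · refine (hΛ.2 s hs).congr_fun ?_ |> fun x => x
      intro p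
      exact eul_eq hD hn hco hT hTχ s p
    · have h1 : k ≠ 0 := by
        rintro rfl
        exact absurd hk (by decide)
      have h2 : b ≠ 0 := by
        rintro rfl
        exact absurd hb (by decide)
      positivity
    · rw [hcard] at hab
      push_cast at hab ⊢
      linear_combination hab
  choose T Λ h1 h2 h3 h4 h5 h6 a b h7 h8 using key
  have hΛd : Differentiable ℂ fun s => ∏ χ : YY n L F, Λ χ s :=
    Differentiable.fun_finsetProd fun χ _ => h4 χ
  -- the bijection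
  have hbij : Function.Bijective (fun χ : YY n L F =>
      (⟨disc (T χ), by
        have hTp : ∀ p ∈ T χ, p.Prime := fun p hp => Nat.prime_of_mem_primeFactors (h1 χ hp)
        refine ⟨?_, h3 χ⟩
        rw [← Int.squarefree_natAbs, disc_natAbs]
        exact dd_sqfree hTp⟩ : {e : ℤ // Squarefree e ∧ ∃ z ∈ F, z ^ 2 = (e : L)})) := by
    constructor
    · intro χ χ' h
      have h9 : disc (T χ) = disc (T χ') := congrArg Subtype.val h
      have h10 := congrArg Int.natAbs h9
      rw [disc_natAbs, disc_natAbs] at h10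
      have h11 : T χ = T χ' := by
        rw [← Nat.primeFactors_prod (s := T χ) fun p hp => Nat.prime_of_mem_primeFactors (h1 χ hp),
          ← Nat.primeFactors_prod (s := T χ') fun p hp => Nat.prime_of_mem_primeFactors (h1 χ' hp)]
        exact congrArg Nat.primeFactors h10
      apply Subtype.ext
      apply MulChar.ext
      intro u
      rw [h2 χ u, h2 χ' u, h11]
    · rintro ⟨e, he, z, hzF, hz⟩
      obtain ⟨T₀, hT₀, rfl⟩ := sqrt_disc (q := n) (L := L) hodd he hz
      have hT2 := T_prime hodd hT₀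
      obtain ⟨ψ, hψ, hψj⟩ := H385.jac_char (dd T₀) (Pool.Agent.Y18.BSD.dd_odd hT2)
        (dd_sqfree fun q hq => (hT2 q hq).1)
      have hχ0 : ∀ u : (ZMod n)ˣ, (DirichletCharacter.changeLevel (dd_dvd_q hT₀) ψ) (u : ZMod n) =
          (jc T₀ u : ℂ) := by
        intro u
        rw [DirichletCharacter.changeLevel_eq_cast_of_dvd]
        have := hψj (u : ZMod n).val
        rw [ZMod.natCast_val] at this
        exact this
      obtain ⟨g, hg2, hgσ⟩ := Pool.Agent.Y18.NF.gauss_T n L hT2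
        fun p hp => Nat.dvd_of_mem_primeFactors (hT₀ hp)
      have hdisc0 : disc T₀ ≠ 0 := he.ne_zero
      have hg0 : g ≠ 0 := by
        rintro rfl
        rw [zero_pow two_ne_zero] at hg2
        exact hdisc0 (by exact_mod_cast hg2.symm)
      have hgF : g ∈ F := by
        have h9 : g ^ 2 = z ^ 2 := by rw [hg2, hz]
        rcases sq_eq_sq_iff_eq_or_eq_neg.1 h9 with h10 | h10
        · rw [h10]; exact hzF
        · rw [h10]; exact F.neg_mem hzF
      have hmem : DirichletCharacter.changeLevel (dd_dvd_q hT₀) ψ ∈ YY n L F := by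
        rw [mem_YY]
        intro σ hσ
        rw [hχ0]
        rw [IntermediateField.mem_fixingSubgroup_iff] at hσ
        have h11 := hgσ σ
        rw [hσ g hgF] at h11
        have h12 : ((jc T₀ (galEquivZMod n L σ) : ℤ) : L) = 1 := by
          apply mul_right_cancel₀ hg0
          rw [one_mul]
          exact h11.symm
        have h13 : jc T₀ (galEquivZMod n L σ) = 1 := by exact_mod_cast h12
        rw [h13, Int.cast_one]
      refine ⟨⟨_, hmem⟩, Subtype.ext ?_⟩
      show disc (T ⟨_, hmem⟩) = disc T₀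
      -- both characters are equal, hence the primitive characters
      have h14 : ∀ u : (ZMod n)ˣ, jc (T ⟨_, hmem⟩) u = jc T₀ u := by
        intro u
        have h15 := h2 ⟨_, hmem⟩ u
        rw [show ((⟨_, hmem⟩ : YY n L F) : DirichletCharacter ℂ n) =
          DirichletCharacter.changeLevel (dd_dvd_q hT₀) ψ from rfl, hχ0 u] at h15
        exact_mod_cast h15.symm
      obtain ⟨g', hg2', hgσ'⟩ := Pool.Agent.Y18.NF.gauss_T n L (T_prime hodd (h1 ⟨_, hmem⟩))
        fun p hp => Nat.dvd_of_mem_primeFactors (h1 ⟨_, hmem⟩ hp)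
      obtain ⟨w, hw⟩ : ∃ r : ℚ, algebraMap ℚ L r = g' * g := by
        have h16 : g' * g ∈ (⊥ : IntermediateField ℚ L) := by
          rw [← InfiniteGalois.fixedField_bot]
          rw [IntermediateField.mem_fixedField_iff]
          intro σ _
          rw [map_mul, hgσ' σ, hgσ σ, h14]
          have h17 : jc T₀ (galEquivZMod n L σ) * jc T₀ (galEquivZMod n L σ) = 1 := by
            rw [← pow_two]
            exact Pool.Agent.Y18.BSD.jc_sq T₀ (dd_dvd_q hT₀) _
          have h18 : ((jc T₀ (galEquivZMod n L σ) : ℤ) : L) * (jc T₀ (galEquivZMod n L σ) : ℤ) = 1 := by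
            exact_mod_cast h17
          linear_combination (g' * g) * h18
        exact IntermediateField.mem_bot.1 h16
      have hw2 : w ^ 2 = ((disc (T ⟨_, hmem⟩) * disc T₀ : ℤ) : ℚ) := by
        apply (algebraMap ℚ L).injective
        rw [map_pow, hw, map_intCast, mul_pow, hg2, hg2']
        push_cast
        ring
      have hw3 : IsSquare (disc (T ⟨_, hmem⟩) * disc T₀) := by
        rw [← Rat.isSquare_intCast_iff, ← hw2]
        exact ⟨w, pow_two w⟩
      obtain ⟨m, hm⟩ := hw3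
      have hTp' := T_prime hodd (h1 ⟨_, hmem⟩)
      have hsqT : Squarefree (disc (T ⟨_, hmem⟩)) := by
        rw [← Int.squarefree_natAbs, disc_natAbs]
        exact dd_sqfree fun p hp => (hTp' p hp).1
      have hnat : (disc (T ⟨_, hmem⟩)).natAbs * (disc T₀).natAbs = m.natAbs * m.natAbs := by
        rw [← Int.natAbs_mul, hm, Int.natAbs_mul]
      have h5' := Pool.Agent.U621.PAR.sqf_eq (Int.squarefree_natAbs.2 hsqT)
        (Int.squarefree_natAbs.2 he) hnat
      have hk0 : 0 ≤ disc (T ⟨_, hmem⟩) * disc T₀ := by rw [hm]; exact mul_self_nonneg m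
      have h6' : 0 < disc (T ⟨_, hmem⟩) * disc T₀ :=
        lt_of_le_of_ne hk0 (mul_ne_zero hsqT.ne_zero hdisc0).symm
      rcases Int.natAbs_eq_natAbs_iff.1 h5' with h7' | h7'
      · exact h7'
      · exfalso
        rw [h7'] at h6'
        nlinarith [mul_self_nonneg (disc T₀)]
  refine ⟨⟨fun s => ∏ χ : YY n L F, Λ χ s, hΛd, fun s hs => ?_, ?_, ∏ χ : YY n L F, a χ,
    ∏ χ : YY n L F, b χ, ?_, ?_⟩, ?_⟩
  · have h9 := hasProd_K n L F hD5 (fun χ s => if h : χ ∈ YY n L F then Λ ⟨χ, h⟩ s else 1) s hs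
      (fun χ hχ => by
        simp only [hχ, dite_true]
        exact h5 ⟨χ, hχ⟩ s hs)
    have h10 : ∏ χ : YY n L F, (fun (χ : DirichletCharacter ℂ n) (s : ℂ) =>
        if h : χ ∈ YY n L F then Λ ⟨χ, h⟩ s else 1) χ s = ∏ χ : YY n L F, Λ χ s := by
      refine prod_congr rfl fun χ _ => ?_
      simp only [χ.2, dite_true]
    show HasProd _ (∏ χ : YY n L F, Λ χ s)
    rw [← h10]
    exact h9
  · exact prod_ne_zero_iff.2 fun χ _ => h6 χ
  · exact prod_ne_zero_iff.2 fun χ _ => h7 χ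
  · have h9 : (∏ᶠ e : {e : ℤ // Squarefree e ∧ ∃ z ∈ F, z ^ 2 = (e : L)}, Om (ED (D * e.1))) =
        ∏ χ : YY n L F, Om (ED (D * disc (T χ))) := by
      rw [← finprod_eq_prod_of_fintype]
      exact (finprod_eq_of_bijective _ hbij fun χ => rfl).symm
    rw [h9]
    push_cast
    rw [← prod_mul_distrib, ← prod_mul_distrib]
    exact prod_congr rfl fun χ _ => h8 χ
  · have hr : RV F D = 0 := by
      refine rank_zero hodd hD.1.ne_zero hI fun T hT _ => ?_
      apply RV_zero_of_finite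
      rw [← finite_iff]
      exact (hTw T hT).1.1
    refine ⟨by rw [rank_eq]; exact hr, ?_⟩
    rw [finite_iff]
    exact finite_of_RV hD.1.ne_zero F hr

end

end Pool.Agent.U621.TWX
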